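import Mathlib

set_option autoImplicit false

/-!
# Locally checkable labeling problems, `BOREL(Γ)` and `BAIRE_α(Γ)`
-/

namespace Pool.Agent.LCL89

open Topology

/-- `IsSigma ξ A` : the set `A` is `Σ⁰_ξ` (`ξ ≥ 1`): `Σ⁰_1` = open, and for `ξ > 1` the countable
unions of sets whose complements are `Σ⁰_{η n}`, `1 ≤ η n < ξ`. -/
inductive IsSigma {X : Type} [TopologicalSpace X] : Ordinal.{0} → Set X → Prop
  | of_open {A : Set X} (hA : IsOpen A) : IsSigma 1 A
  | iUnion {ξ : Ordinal.{0}} (hξ : 1 < ξ) (η : ℕ → Ordinal.{0}) (B : ℕ → Set X)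
      (h1 : ∀ n, 1 ≤ η n) (hη : ∀ n, η n < ξ) (hB : ∀ n, IsSigma (η n) (B n)) :
      IsSigma ξ (⋃ n, (B n)ᶜ)

/-- A locally checkable labeling problem on `Γ`: finite label set `Λ`, finite window `S`, allowed
patterns `A`. -/
structure LCL (Γ : Type) where
  Λ : Type
  finite_Λ : Finite Λ
  S : Finset Γ
  A : Set (S → Λ)

/-- `f` is a `Π`-labeling of `X`. -/
def IsLabeling {Γ : Type} [Group Γ] (P : LCL Γ) {X : Type} [MulAction Γ X] (f : X → P.Λ) : Prop :=
  ∀ x : X, (fun γ : P.S => f ((γ : Γ) • x)) ∈ P.A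

/-- the action is free -/
def FreeAct (Γ X : Type) [Group Γ] [MulAction Γ X] : Prop := ∀ (γ : Γ) (x : X), γ • x = x → γ = 1

/-- zero-dimensional: there is a base of clopen sets -/
def ZeroDim (X : Type) [TopologicalSpace X] : Prop :=
  TopologicalSpace.IsTopologicalBasis {s : Set X | IsClopen s}

/-- `f : X → Λ` (`Λ` discrete) is of Baire class `α`: preimages of all (open) sets are
`Σ⁰_{1+α}`. -/
def BaireClass {X : Type} [TopologicalSpace X] {L : Type} (α : Ordinal.{0}) (f : X → L) : Prop :=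
  ∀ U : Set L, IsSigma (1 + α) (f ⁻¹' U)

/-- `BOREL(Γ)`: the LCLs such that every free Borel action on a standard Borel space admits a Borel
labeling. -/
def BOREL (Γ : Type) [Group Γ] : Set (LCL Γ) :=
  {P | ∀ (X : Type) [MeasurableSpace X] [StandardBorelSpace X] [MulAction Γ X],
    (∀ γ : Γ, Measurable fun x : X => γ • x) → FreeAct Γ X →
      ∃ f : X → P.Λ, (∀ l, MeasurableSet (f ⁻¹' {l})) ∧ IsLabeling P f}

/-- `BAIRE_α(Γ)`: the LCLs such that every free continuous action on a zero-dimensional Polish space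
admits a labeling of Baire class `α`. -/
def BAIRE (α : Ordinal.{0}) (Γ : Type) [Group Γ] : Set (LCL Γ) :=
  {P | ∀ (X : Type) [TopologicalSpace X] [PolishSpace X] [MulAction Γ X], ZeroDim X →
    (∀ γ : Γ, Continuous fun x : X => γ • x) → FreeAct Γ X →
      ∃ f : X → P.Λ, BaireClass α f ∧ IsLabeling P f}

end Pool.Agent.LCL89
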