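import Pool.Agent.LCL89.Forced.Stmt
import Pool.Agent.LCL89.Lcl.Stmt
import Pool.Agent.LCL89.CL.Proof

set_option autoImplicit false

/-!
# Final assembly
-/

namespace Pool.Agent.LCL89

open Ordinal

/-- final assembly from the modules -/
theorem final (hHard : StmtHard) (hSol : StmtBorelSolution) (hGood : StmtGood)
    (hRed : StmtReduction) (hLow : StmtLower) (hIota : StmtIotaCont) (hGc : StmtGCountable)
    (α : Ordinal.{0}) (hα : α < ω_ 1) :
    ∃ (Γ : Type) (_ : Group Γ) (_ : Countable Γ), BOREL Γ ≠ BAIRE α Γ ∧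
      ∃ P : LCL Γ, P ∈ BOREL Γ ∧ P ∉ BAIRE α Γ := by
  have hcard : (1 + α).card ≤ Cardinal.aleph0 := by
    have h1 : α.card ≤ Cardinal.aleph0 := by
      rw [← Cardinal.ord_aleph, Cardinal.lt_ord, ← Cardinal.succ_aleph0, Order.lt_succ_iff] at hα
      exact hα
    rw [Ordinal.card_add, Ordinal.card_one]
    exact (Cardinal.add_le_aleph0).2 ⟨Cardinal.one_le_aleph0, h1⟩
  obtain ⟨T, -, hT⟩ := hHard (1 + α) (by simp) hcard
  have hcG : Countable (GP (Val T)) := hGc _
  have hcΓ : Countable (Gam (Val T)) := by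
    haveI : Countable (ZMod 3) := inferInstanceAs (Countable (Fin 3))
    haveI : Countable (Multiplicative (ZMod 3)) := inferInstanceAs (Countable (ZMod 3))
    exact countable_coprod _ _
  have hB : theLCL (eG (Val T)).lift ∈ BOREL (Gam (Val T)) := hSol _ _ (hGood T)
  have hA : theLCL (eG (Val T)).lift ∉ BAIRE α (Gam (Val T)) := by
    intro h
    obtain ⟨f, hf, hfi, hfr⟩ := hRed _ α h (iotaY (Val T) T) (hIota _ _)
    exact hT (hLow T α f hfi hfr hf)
  refine ⟨Gam (Val T), inferInstance, hcΓ, ?_, _, hB, hA⟩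
  intro h
  exact hA (h ▸ hB)

end Pool.Agent.LCL89
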