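import Pool.Agent.LCL89.Main.Pre
import Pool.Agent.LCL89.Lcl.UN
import Pool.Agent.LCL89.Lcl.Lam
import Pool.Agent.LCL89.Grp.Good

set_option autoImplicit false

/-!
# Main theorem
-/

namespace Pool.Agent.LCL89

open Ordinal

theorem main (α : Ordinal.{0}) (hα : α < ω_ 1) :
    ∃ (Γ : Type) (_ : Group Γ) (_ : Countable Γ), BOREL Γ ≠ BAIRE α Γ ∧
      ∃ P : LCL Γ, P ∈ BOREL Γ ∧ P ∉ BAIRE α Γ :=
  main_of un (lamStmt finGroup) (good valWf k2) α hα

end Pool.Agent.LCL89
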