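import Pool.Agent.LCL89.Main.Final
import Pool.Agent.LCL89.Hier.Hard
import Pool.Agent.LCL89.Hier.Proofs8
import Pool.Agent.LCL89.Lcl.RP
import Pool.Agent.LCL89.Lcl.Solution
import Pool.Agent.LCL89.Lcl.FinGroup
import Pool.Agent.LCL89.Grp.K
import Pool.Agent.LCL89.Grp.G
import Pool.Agent.LCL89.Grp.YHomeo
import Pool.Agent.LCL89.ML.Space
import Pool.Agent.LCL89.ML.Game
import Pool.Agent.LCL89.CL.Proof
import Pool.Agent.LCL89.Sim.Reduction
import Pool.Agent.LCL89.Forced.Lower
import Pool.Agent.LCL89.Forced.Claim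
import Pool.Agent.LCL89.Forced.IotaCont
import Pool.Agent.Det.Main

set_option autoImplicit false

/-!
# Assembly
-/

namespace Pool.Agent.LCL89

open Ordinal

theorem main_of (hUN : StmtUN) (hLam : StmtLam) (hGood : StmtGood) (α : Ordinal.{0})
    (hα : α < ω_ 1) :
    ∃ (Γ : Type) (_ : Group Γ) (_ : Countable Γ), BOREL Γ ≠ BAIRE α Γ ∧
      ∃ P : LCL Γ, P ∈ BOREL Γ ∧ P ∉ BAIRE α Γ :=
  final hard (borelSolution rp hUN hLam finGroup) hGood
    (reduction (ML.ml_of ML.mlSpace (ML.mlGame Det.stmtCausal)) cl preimage sigmaBorel windowStmt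
      yAct yHomeo gCountable)
    (lower (forced k1) vaught preimage sigmaBorel) iotaCont gCountable α hα

end Pool.Agent.LCL89
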